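import Mathlib.LinearAlgebra.Matrix.Determinant.Basic
import Mathlib.LinearAlgebra.Matrix.Adjugate
import Mathlib.LinearAlgebra.Matrix.NonsingularInverse
import Mathlib.LinearAlgebra.Matrix.Block
import Mathlib.LinearAlgebra.Matrix.ToLinearEquiv
import Mathlib.LinearAlgebra.LinearIndependent.Lemmas
import Mathlib.Data.Real.Basic
import Mathlib.Tactic

set_option autoImplicit false

/-!
# Determinants of matrices whose rows are differences of interval vectors

Interval matrices have determinant `0, 1, -1`; so a matrix with one interval row and `m` rows that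
are differences of two interval vectors has determinant of absolute value at most `2 ^ m`.
-/

namespace Pool.Agent.Q246.Blocks

open Finset Matrix

/-- rows with at most one entry `1`, at most one entry `-1`, all other entries zero -/
def Net {n : ℕ} (v : Fin n → ℤ) : Prop :=
  (∀ j, v j = 0 ∨ v j = 1 ∨ v j = -1) ∧ (∀ j k, v j = 1 → v k = 1 → j = k) ∧
    (∀ j k, v j = -1 → v k = -1 → j = k)

set_option linter.unusedVariables false in
lemma Net.comp {n m : ℕ} {v : Fin n → ℤ} (h : Net v) (f : Fin m → Fin n)
    (hf : Function.Injective f) : Net (fun j => v (f j)) :=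
  ⟨fun j => h.1 _, fun j k h1 h2 => hf (h.2.1 _ _ h1 h2), fun j k h1 h2 => hf (h.2.2 _ _ h1 h2)⟩

lemma Net.single {n : ℕ} {v : Fin n → ℤ} (h : Net v) (hs : ∑ j, v j ≠ 0) :
    ∃ a, ∀ j, j ≠ a → v j = 0 := by
  by_cases h1 : ∃ a, v a = 1
  · obtain ⟨a, ha⟩ := h1
    by_cases h2 : ∃ b, v b = -1
    · exfalso
      obtain ⟨b, hb⟩ := h2
      apply hs
      have hab : a ≠ b := by
        rintro rfl
        rw [ha] at hb
        norm_num at hb
      rw [sum_eq_add a b hab, ha, hb]
      · norm_num
      · intro c _ hc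
        rcases h.1 c with h3 | h3 | h3
        · exact h3
        · exact absurd (h.2.1 c a h3 ha) hc.1
        · exact absurd (h.2.2 c b h3 hb) hc.2
      · intro h3
        exact absurd (mem_univ _) h3
      · intro h3
        exact absurd (mem_univ _) h3
    · push Not at h2
      refine ⟨a, fun j hj => ?_⟩
      rcases h.1 j with h3 | h3 | h3
      · exact h3
      · exact absurd (h.2.1 j a h3 ha) hj
      · exact absurd h3 (h2 j)
  · push Not at h1
    by_cases h2 : ∃ b, v b = -1
    · obtain ⟨b, hb⟩ := h2
      refine ⟨b, fun j hj => ?_⟩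
      rcases h.1 j with h3 | h3 | h3
      · exact h3
      · exact absurd h3 (h1 j)
      · exact absurd (h.2.2 j b h3 hb) hj
    · push Not at h2
      exfalso
      apply hs
      apply sum_eq_zero
      intro j _
      rcases h.1 j with h3 | h3 | h3
      · exact h3
      · exact absurd h3 (h1 j)
      · exact absurd h3 (h2 j)

/-- network matrices have determinant `0, 1, -1` -/
lemma net_det : ∀ (n : ℕ) (M : Matrix (Fin n) (Fin n) ℤ), (∀ i, Net (M i)) → |M.det| ≤ 1 := by
  intro n
  induction n with
  | zero =>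
    intro M _
    rw [det_fin_zero]
    norm_num
  | succ n ih =>
    intro M hM
    by_cases h : ∀ i, ∑ j, M i j = 0
    · have h0 : M.det = 0 := by
        apply (Matrix.exists_mulVec_eq_zero_iff (M := M)).1
        refine ⟨fun _ => 1, ?_, ?_⟩
        · intro h1
          have := congrFun h1 0
          norm_num at this
        · funext i
          rw [mulVec, dotProduct]
          simp only [mul_one, Pi.zero_apply]
          exact h i
      rw [h0]
      norm_num
    · push Not at h
      obtain ⟨i, hi⟩ := h
      obtain ⟨a, ha⟩ := (hM i).single hi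
      rw [det_succ_row M i, sum_eq_single a]
      · rw [abs_mul, abs_mul]
        have h1 : |(-1 : ℤ) ^ ((i : ℕ) + (a : ℕ))| = 1 := by
          rw [abs_pow]
          norm_num
        have h2 : |M i a| ≤ 1 := by
          rcases (hM i).1 a with h3 | h3 | h3 <;> rw [h3] <;> norm_num
        have h3 : |(M.submatrix i.succAbove a.succAbove).det| ≤ 1 :=
          ih _ (fun j => (hM _).comp _ Fin.succAbove_right_injective)
        rw [h1, one_mul]
        calc |M i a| * |(M.submatrix i.succAbove a.succAbove).det| ≤ 1 * 1 :=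
              mul_le_mul h2 h3 (abs_nonneg _) (by norm_num)
          _ = 1 := one_mul 1
      · intro b _ hb
        rw [ha b hb]
        ring
      · intro h1
        exact absurd (mem_univ _) h1

/-- the indicator vector of the block of indices `t` with `i ≤ t < j` -/
def blk (n i j : ℕ) : Fin n → ℤ := fun t => if i ≤ (t : ℕ) ∧ (t : ℕ) < j then 1 else 0

/-- the column operation turning interval rows into network rows -/
def Del (n : ℕ) : Matrix (Fin n) (Fin n) ℤ :=
  fun s t => if s = t then 1 else if (s : ℕ) + 1 = (t : ℕ) then -1 else 0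

lemma det_Del (n : ℕ) : (Del n).det = 1 := by
  rw [det_of_isUpperTriangular]
  · simp [Del]
  · intro i j hij
    have h1 : (j : ℕ) < (i : ℕ) := hij
    rw [Del]
    have h2 : i ≠ j := by
      rintro rfl
      exact lt_irrefl _ h1
    rw [if_neg h2, if_neg (by omega)]

lemma mul_Del {n : ℕ} (v : Fin n → ℤ) (t : Fin n) :
    ∑ s, v s * Del n s t =
      v t - (if h : 0 < (t : ℕ) then v ⟨(t : ℕ) - 1, by omega⟩ else 0) := by
  by_cases h : 0 < (t : ℕ)
  · rw [dif_pos h]
    have hne : t ≠ (⟨(t : ℕ) - 1, by omega⟩ : Fin n) := by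
      intro h1
      have := congrArg Fin.val h1
      simp only at this
      omega
    rw [sum_eq_add t ⟨(t : ℕ) - 1, by omega⟩ hne]
    · simp only [Del]
      rw [if_pos trivial, if_neg (Ne.symm hne), if_pos (by omega)]
      ring
    · intro c _ hc
      simp only [Del]
      rw [if_neg hc.1, if_neg, mul_zero]
      intro h1
      apply hc.2
      apply Fin.ext
      simp only
      omega
    · intro h1
      exact absurd (mem_univ _) h1
    · intro h1
      exact absurd (mem_univ _) h1
  · rw [dif_neg h, sub_zero, sum_eq_single t]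
    · simp [Del]
    · intro c _ hc
      simp only [Del]
      rw [if_neg hc, if_neg (by omega), mul_zero]
    · intro h1
      exact absurd (mem_univ _) h1

/-- matrices whose rows are interval vectors have determinant `0, 1, -1` -/
lemma blk_det (n : ℕ) (M : Matrix (Fin n) (Fin n) ℤ)
    (hM : ∀ i, ∃ a b : ℕ, M i = blk n a b) : |M.det| ≤ 1 := by
  have h1 : M.det = (M * Del n).det := by
    rw [det_mul, det_Del, mul_one]
  rw [h1]
  apply net_det
  intro i
  obtain ⟨a, b, hab⟩ := hM i
  have h2 : ∀ t, (M * Del n) i t = M i t -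
      (if h : 0 < (t : ℕ) then M i ⟨(t : ℕ) - 1, by omega⟩ else 0) := by
    intro t
    rw [mul_apply]
    exact mul_Del (M i) t
  have h3 : ∀ t, ((M * Del n) i t = 0) ∨ ((M * Del n) i t = 1 ∧ (t : ℕ) = a) ∨
      ((M * Del n) i t = -1 ∧ (t : ℕ) = b) := by
    intro t
    rw [h2 t, hab]
    simp only [blk]
    by_cases ht : 0 < (t : ℕ)
    · rw [dif_pos ht]
      split_ifs with h4 h5 h5
      · left; norm_num
      · right; left
        refine ⟨by norm_num, ?_⟩
        omega
      · right; right
        refine ⟨by norm_num, ?_⟩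
        omega
      · left; norm_num
    · rw [dif_neg ht]
      split_ifs with h4
      · right; left
        exact ⟨by norm_num, by omega⟩
      · left; norm_num
  refine ⟨fun t => ?_, fun s t hs ht => ?_, fun s t hs ht => ?_⟩
  · rcases h3 t with h | h | h
    · exact Or.inl h
    · exact Or.inr (Or.inl h.1)
    · exact Or.inr (Or.inr h.1)
  · rcases h3 s with h | h | h
    · rw [h] at hs; norm_num at hs
    · rcases h3 t with h' | h' | h'
      · rw [h'] at ht; norm_num at ht
      · exact Fin.ext (h.2.trans h'.2.symm)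
      · rw [h'.1] at ht; norm_num at ht
    · rw [h.1] at hs; norm_num at hs
  · rcases h3 s with h | h | h
    · rw [h] at hs; norm_num at hs
    · rw [h.1] at hs; norm_num at hs
    · rcases h3 t with h' | h' | h'
      · rw [h'] at ht; norm_num at ht
      · rw [h'.1] at ht; norm_num at ht
      · exact Fin.ext (h.2.trans h'.2.symm)

/-- If the rows in `T` are differences of two interval vectors and the other rows are interval
vectors, the determinant is at most `2 ^ |T|` in absolute value. -/
lemma diff_det (n : ℕ) (T : Finset (Fin n)) : ∀ (M : Matrix (Fin n) (Fin n) ℤ),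
    (∀ i, i ∉ T → ∃ a b : ℕ, M i = blk n a b) →
    (∀ i, i ∈ T → ∃ a b c d : ℕ, M i = blk n a b - blk n c d) → |M.det| ≤ 2 ^ T.card := by
  induction T using Finset.induction_on with
  | empty =>
    intro M h1 _
    rw [card_empty, pow_zero]
    exact blk_det n M (fun i => h1 i (notMem_empty i))
  | insert t T ht ih =>
    intro M h1 h2
    obtain ⟨a, b, c, d, hM⟩ := h2 t (mem_insert_self _ _)
    have hrow : ∀ (u : Fin n → ℤ), (∃ a b : ℕ, u = blk n a b) →
        |(M.updateRow t u).det| ≤ 2 ^ T.card := by
      intro u hu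
      apply ih
      · intro i hi
        by_cases hit : i = t
        · subst hit
          rw [updateRow_self]
          exact hu
        · rw [updateRow_ne hit]
          exact h1 i (by rw [mem_insert]; tauto)
      · intro i hi
        have hit : i ≠ t := by
          rintro rfl
          exact ht hi
        rw [updateRow_ne hit]
        exact h2 i (mem_insert_of_mem hi)
    have h3 : M = M.updateRow t (blk n a b + (-1 : ℤ) • blk n c d) := by
      have : blk n a b + (-1 : ℤ) • blk n c d = M t := by
        rw [hM]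
        simp [sub_eq_add_neg]
      rw [this, updateRow_eq_self]
    rw [h3, det_updateRow_add, det_updateRow_smul, card_insert_of_notMem ht]
    have h4 := hrow _ ⟨a, b, rfl⟩
    have h5 := hrow _ ⟨c, d, rfl⟩
    calc |(M.updateRow t (blk n a b)).det + -1 * (M.updateRow t (blk n c d)).det|
        ≤ |(M.updateRow t (blk n a b)).det| + |-1 * (M.updateRow t (blk n c d)).det| :=
          abs_add_le _ _
      _ = |(M.updateRow t (blk n a b)).det| + |(M.updateRow t (blk n c d)).det| := by
          rw [abs_mul]
          norm_num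
      _ ≤ 2 ^ T.card + 2 ^ T.card := add_le_add h4 h5
      _ = 2 ^ (T.card + 1) := by ring

/-- The bound for a positive vector orthogonal to `m` independent differences of two interval
vectors in dimension `m + 1`. -/
theorem bound {m : ℕ} (d : Fin (m + 1) → ℝ) (hd : ∀ i, 0 < d i) (e : Fin m → Fin (m + 1) → ℤ)
    (he : ∀ t, ∃ a b c c' : ℕ, e t = blk (m + 1) a b - blk (m + 1) c c')
    (hlin : LinearIndependent ℝ (fun t : Fin m => fun i : Fin (m + 1) => (e t i : ℝ)))
    (horth : ∀ t, ∑ i, (e t i : ℝ) * d i = 0) (i : Fin (m + 1)) :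
    ∑ j, d j ≤ 2 ^ m * d i := by
  let A : Matrix (Fin (m + 1)) (Fin (m + 1)) ℤ :=
    Matrix.of (Fin.cons (fun _ => 1) e : Fin (m + 1) → Fin (m + 1) → ℤ)
  let f : ℤ →+* ℝ := Int.castRingHom ℝ
  have hA0 : ∀ j, A 0 j = 1 := fun j => rfl
  have hAs : ∀ t j, A (Fin.succ t) j = e t j := fun t j => rfl
  have hs : 0 < ∑ j, d j := sum_pos (fun j _ => hd j) ⟨0, mem_univ _⟩
  -- the bound for the determinant
  have hdet : |A.det| ≤ 2 ^ m := by
    have h1 := diff_det (m + 1) (univ.erase 0) A ?_ ?_
    · rw [card_erase_of_mem (mem_univ _), card_univ, Fintype.card_fin, Nat.add_sub_cancel] at h1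
      exact h1
    · intro k hk
      have hk0 : k = 0 := by
        by_contra h
        exact hk (mem_erase.2 ⟨h, mem_univ _⟩)
      subst hk0
      refine ⟨0, m + 1, ?_⟩
      funext j
      rw [hA0]
      simp only [blk]
      rw [if_pos ⟨Nat.zero_le _, j.isLt⟩]
    · intro k hk
      obtain ⟨t, rfl⟩ := Fin.exists_succ_eq.2 (mem_erase.1 hk).1
      obtain ⟨a, b, c, c', h⟩ := he t
      refine ⟨a, b, c, c', ?_⟩
      rw [← h]
      rfl
  -- the product with `d`
  have hmul : (A.map f) *ᵥ d = (∑ j, d j) • (Pi.single 0 1 : Fin (m + 1) → ℝ) := by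
    funext k
    rw [mulVec, dotProduct, Pi.smul_apply, smul_eq_mul]
    by_cases hk : k = 0
    · subst hk
      rw [Pi.single_eq_same, mul_one]
      apply sum_congr rfl
      intro j _
      rw [map_apply, hA0]
      simp [f]
    · rw [Pi.single_eq_of_ne hk, mul_zero]
      obtain ⟨t, rfl⟩ := Fin.exists_succ_eq.2 hk
      rw [← horth t]
      rfl
  -- the determinant does not vanish
  have hne : (A.map f).det ≠ 0 := by
    have h1 : LinearIndependent ℝ (A.map f).row := by
      have h2 : (A.map f).row = (Fin.cons (fun _ => (1 : ℝ)) (fun t : Fin m =>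
          fun i : Fin (m + 1) => (e t i : ℝ)) : Fin (m + 1) → Fin (m + 1) → ℝ) := by
        funext k
        refine Fin.cases ?_ (fun t => ?_) k
        · funext j
          rw [Fin.cons_zero, row_apply', map_apply, hA0]
          simp [f]
        · funext j
          rw [Fin.cons_succ, row_apply', map_apply, hAs]
          simp [f]
      rw [h2]
      rw [linearIndependent_finCons]
      refine ⟨hlin, ?_⟩
      intro hmem
      have h3 : ∀ x ∈ Submodule.span ℝ (Set.range (fun t : Fin m =>
          fun i : Fin (m + 1) => (e t i : ℝ))), ∑ i, x i * d i = 0 := by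
        intro x hx
        induction hx using Submodule.span_induction with
        | mem x hx =>
          obtain ⟨t, rfl⟩ := hx
          exact horth t
        | zero => simp
        | add x y _ _ hx hy =>
          simp only [Pi.add_apply, add_mul, sum_add_distrib, hx, hy, add_zero]
        | smul c x _ hx =>
          simp only [Pi.smul_apply, smul_eq_mul, mul_assoc, ← mul_sum, hx, mul_zero]
      have h4 := h3 _ hmem
      simp only [one_mul] at h4
      linarith
    have h2 := (Matrix.linearIndependent_rows_iff_isUnit).1 h1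
    rw [Matrix.isUnit_iff_isUnit_det] at h2
    exact h2.ne_zero
  have hcast : (A.map f).det = (A.det : ℝ) := by
    have := RingHom.map_det f A
    rw [RingHom.mapMatrix_apply] at this
    rw [← this]
    rfl
  have hadj : (A.map f).adjugate = A.adjugate.map f := by
    have := RingHom.map_adjugate f A
    rw [RingHom.mapMatrix_apply, RingHom.mapMatrix_apply] at this
    exact this.symm
  have hkey : (A.det : ℝ) * d i = (∑ j, d j) * (A.adjugate i 0 : ℝ) := by
    have h1 : ((A.map f).adjugate * (A.map f)) *ᵥ d = (A.det : ℝ) • d := by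
      rw [adjugate_mul, smul_mulVec, one_mulVec, hcast]
    rw [← mulVec_mulVec, hmul, mulVec_smul, hadj] at h1
    have h2 := congrFun h1 i
    rw [Pi.smul_apply, Pi.smul_apply, smul_eq_mul, smul_eq_mul, mulVec_single_one] at h2
    rw [← h2]
    rfl
  have hadjne : A.adjugate i 0 ≠ 0 := by
    intro h0
    rw [h0] at hkey
    have h1 : (A.det : ℝ) * d i ≠ 0 := by
      rw [← hcast]
      exact mul_ne_zero hne (hd i).ne'
    apply h1
    rw [hkey]
    simp
  have h1 : (1 : ℝ) ≤ |(A.adjugate i 0 : ℝ)| := by
    have : (1 : ℤ) ≤ |A.adjugate i 0| := Int.one_le_abs hadjne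
    exact_mod_cast this
  have h2 : |(A.det : ℝ)| ≤ 2 ^ m := by exact_mod_cast hdet
  calc ∑ j, d j = (∑ j, d j) * 1 := (mul_one _).symm
    _ ≤ (∑ j, d j) * |(A.adjugate i 0 : ℝ)| := mul_le_mul_of_nonneg_left h1 hs.le
    _ = |(∑ j, d j) * (A.adjugate i 0 : ℝ)| := by rw [abs_mul, abs_of_pos hs]
    _ = |(A.det : ℝ) * d i| := by rw [hkey]
    _ = |(A.det : ℝ)| * d i := by rw [abs_mul, abs_of_pos (hd i)]
    _ ≤ 2 ^ m * d i := mul_le_mul_of_nonneg_right h2 (hd i).le

/-- the real indicator vector of the block of coordinates `t` with `i ≤ t < j` -/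
def rblk (n i j : ℕ) : Fin n → ℝ := fun t => if i ≤ (t : ℕ) ∧ (t : ℕ) < j then 1 else 0

lemma rblk_cast (n i j : ℕ) (t : Fin n) : rblk n i j t = (blk n i j t : ℝ) := by
  simp only [rblk, blk]
  split_ifs <;> norm_num

/-- The bound, in terms of real vectors. -/
theorem bound' {m : ℕ} (d : Fin (m + 1) → ℝ) (hd : ∀ i, 0 < d i) (e : Fin m → Fin (m + 1) → ℝ)
    (he : ∀ t, ∃ a b c c' : ℕ, e t = rblk (m + 1) a b - rblk (m + 1) c c')
    (hlin : LinearIndependent ℝ e)
    (horth : ∀ t, ∑ i, e t i * d i = 0) (i : Fin (m + 1)) :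
    ∑ j, d j ≤ 2 ^ m * d i := by
  choose a b c c' h using he
  have h1 : e = (fun t : Fin m => fun i : Fin (m + 1) =>
      (((blk (m + 1) (a t) (b t) - blk (m + 1) (c t) (c' t)) i : ℤ) : ℝ)) := by
    funext t i
    rw [h t, Pi.sub_apply, Pi.sub_apply, rblk_cast, rblk_cast]
    push_cast
    rfl
  rw [h1] at hlin horth
  exact bound d hd (fun t => blk (m + 1) (a t) (b t) - blk (m + 1) (c t) (c' t))
    (fun t => ⟨a t, b t, c t, c' t, rfl⟩) hlin horth i

lemma sum_rblk (n i j : ℕ) (hj : j ≤ n) (g : ℕ → ℝ) :
    ∑ t : Fin n, rblk n i j t * g t = ∑ t ∈ Ico i j, g t := by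
  have h1 : ∀ t : Fin n, rblk n i j t * g t =
      (fun s : ℕ => if i ≤ s ∧ s < j then g s else 0) (t : ℕ) := by
    intro t
    simp only [rblk]
    split_ifs <;> ring
  rw [sum_congr rfl (fun t _ => h1 t),
    Fin.sum_univ_eq_sum_range (fun s : ℕ => if i ≤ s ∧ s < j then g s else 0) n, ← sum_filter]
  apply sum_congr
  · ext s
    rw [mem_filter, mem_range, mem_Ico]
    constructor
    · intro h
      exact h.2
    · intro h
      exact ⟨by omega, h⟩
  · intro s _
    rfl

/-- the doubling sequence `1, 1, 2, 4, 8, …` -/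
def dbl (s : ℕ) : ℕ := 2 ^ (s - 1)

lemma dbl_sum (s : ℕ) : ∑ t ∈ Ico 0 (s + 1), (dbl t : ℝ) = 2 ^ s := by
  induction s with
  | zero => simp [dbl]
  | succ s ih =>
    rw [sum_Ico_succ_top (by omega), ih]
    simp only [dbl]
    rw [Nat.add_sub_cancel]
    push_cast
    ring

/-- the equations satisfied by the doubling sequence -/
def dblEq (m : ℕ) (t : Fin m) : Fin (m + 1) → ℝ :=
  rblk (m + 1) 0 ((t : ℕ) + 1) - rblk (m + 1) ((t : ℕ) + 1) ((t : ℕ) + 2)

lemma dblEq_orth (m : ℕ) (t : Fin m) :
    ∑ i : Fin (m + 1), dblEq m t i * (dbl (i : ℕ) : ℝ) = 0 := by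
  have ht := t.isLt
  simp only [dblEq, Pi.sub_apply, sub_mul, sum_sub_distrib]
  have h1 := sum_rblk (m + 1) 0 ((t : ℕ) + 1) (by omega) (fun s => (dbl s : ℝ))
  have h2 := sum_rblk (m + 1) ((t : ℕ) + 1) ((t : ℕ) + 2) (by omega) (fun s => (dbl s : ℝ))
  rw [h1, h2, dbl_sum, sum_Ico_succ_top (by omega), Ico_self, sum_empty]
  simp [dbl]

lemma dblEq_lin (m : ℕ) : LinearIndependent ℝ (dblEq m) := by
  let A : Matrix (Fin (m + 1)) (Fin (m + 1)) ℝ :=
    Matrix.of (Fin.cons (rblk (m + 1) 0 1) (dblEq m) : Fin (m + 1) → Fin (m + 1) → ℝ)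
  have hA0 : A 0 = rblk (m + 1) 0 1 := rfl
  have hAs : ∀ t, A (Fin.succ t) = dblEq m t := fun t => rfl
  have htri : A.IsLowerTriangular := by
    intro i j hij
    have h1 : (i : ℕ) < (j : ℕ) := hij
    by_cases hi : i = 0
    · subst hi
      rw [hA0]
      simp only [rblk]
      rw [if_neg]
      intro h
      simp only [Fin.val_zero] at h1
      omega
    · obtain ⟨t, rfl⟩ := Fin.exists_succ_eq.2 hi
      rw [hAs]
      simp only [dblEq, Pi.sub_apply, rblk]
      rw [Fin.val_succ] at h1
      rw [if_neg (by omega), if_neg (by omega), sub_zero]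
  have hdet : A.det ≠ 0 := by
    rw [det_of_isLowerTriangular A htri]
    rw [prod_ne_zero_iff]
    intro i _
    by_cases hi : i = 0
    · subst hi
      rw [hA0]
      simp [rblk]
    · obtain ⟨t, rfl⟩ := Fin.exists_succ_eq.2 hi
      rw [hAs]
      simp only [dblEq, Pi.sub_apply, rblk, Fin.val_succ]
      rw [if_neg (by omega), if_pos (by omega)]
      norm_num
  have h1 : LinearIndependent ℝ A.row := by
    rw [Matrix.linearIndependent_rows_iff_isUnit, Matrix.isUnit_iff_isUnit_det]
    exact isUnit_iff_ne_zero.2 hdet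
  have h2 : A.row = (Fin.cons (rblk (m + 1) 0 1) (dblEq m) : Fin (m + 1) → Fin (m + 1) → ℝ) := rfl
  rw [h2, linearIndependent_finCons] at h1
  exact h1.1

end Pool.Agent.Q246.Blocks
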