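import Mathlib.FieldTheory.Finite.Trace
import Mathlib.FieldTheory.Finite.GaloisField
import Mathlib.LinearAlgebra.BilinearForm.Properties
import Mathlib.RingTheory.Trace.Basic
import Mathlib.Algebra.CharP.CharAndCard
import Mathlib.Algebra.CharP.Two
import Mathlib.Tactic

set_option autoImplicit false

/-!
# The cube map on the field with 32 elements: every nonzero element is a difference
-/

namespace Pool.Agent.Q246.Cube32

open Finset

variable {K : Type} [Field K] [Fintype K]

/-- Power sums vanish unless the exponent is `0` or divisible by `31`. -/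
lemma sum_pow (hK : Fintype.card K = 32) (e : ℕ) (h : ¬ 31 ∣ e) : ∑ b : K, b ^ e = 0 := by
  have h1 : ∀ b : K, b ^ e = b ^ (e % 31) := by
    intro b
    have hb : b ^ 32 = b := by
      have := FiniteField.pow_card b
      rwa [hK] at this
    have h2 : e = 31 * (e / 31) + e % 31 := (Nat.div_add_mod e 31).symm
    have h3 : 1 ≤ e % 31 := by omega
    have h4 : ∀ k : ℕ, ∀ r : ℕ, 1 ≤ r → b ^ (31 * k + r) = b ^ r := by
      intro k
      induction k with
      | zero => intro r _; simp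
      | succ k ih =>
        intro r hr
        obtain ⟨s, rfl⟩ : ∃ s, r = s + 1 := ⟨r - 1, by omega⟩
        have h5 : 31 * (k + 1) + (s + 1) = 31 * k + (s + 32) := by ring
        rw [h5, ih (s + 32) (by omega), pow_add, hb, pow_succ]
    rw [h2, h4 _ _ h3]
    congr 1
    omega
  rw [sum_congr rfl (fun b _ => h1 b)]
  apply FiniteField.sum_pow_lt_card_sub_one
  rw [hK]
  omega

/-- An additive map is killed by powers `b ^ e` with `e + 2 ^ i` prime to `31` for all `i`. -/
lemma sum_additive (hK : Fintype.card K = 32) [CharP K 2] (g : K →+ K) (e : ℕ)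
    (he : ∀ i < 5, ¬ 31 ∣ 2 ^ i + e) : ∑ b : K, g b * b ^ e = 0 := by
  let _ : Algebra (ZMod 2) K := ZMod.algebra K 2
  have hfr : Module.finrank (ZMod 2) K = 5 := by
    have h1 := Module.card_eq_pow_finrank (K := ZMod 2) (V := K)
    rw [hK, ZMod.card] at h1
    have h2 : (2 : ℕ) ^ 5 = 2 ^ Module.finrank (ZMod 2) K := by rw [← h1]; norm_num
    exact (Nat.pow_right_injective (le_refl 2) h2).symm
  let bs := Module.finBasis (ZMod 2) K
  let gl : K →ₗ[ZMod 2] K := g.toZModLinearMap 2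
  have hgl : ∀ b, gl b = g b := fun b => rfl
  have hB := traceForm_nondegenerate (ZMod 2) K
  -- every coordinate functional is given by the trace
  have hcoord : ∀ i, ∃ d : K, ∀ b : K, bs.coord i b = Algebra.trace (ZMod 2) K (d * b) := by
    intro i
    refine ⟨((Algebra.traceForm (ZMod 2) K).toDual hB).symm (bs.coord i), fun b => ?_⟩
    have := LinearMap.BilinForm.apply_toDual_symm_apply (hB := hB) (f := bs.coord i) (v := b)
    rw [Algebra.traceForm_apply] at this
    exact this.symm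
  choose d hd using hcoord
  have hexp : ∀ b : K, g b = ∑ i, (∑ j ∈ range 5, (d i * b) ^ (2 ^ j)) * g (bs i) := by
    intro b
    rw [← hgl b]
    conv_lhs => rw [← bs.sum_repr b]
    rw [map_sum]
    apply sum_congr rfl
    intro i _
    rw [map_smul, hgl, Algebra.smul_def]
    congr 1
    have h1 : bs.repr b i = Algebra.trace (ZMod 2) K (d i * b) := by
      rw [← hd i b]
      rfl
    rw [h1, FiniteField.algebraMap_trace_eq_sum_pow, hfr]
    apply sum_congr rfl
    intro j _
    rw [Nat.card_zmod]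
  have h1 : ∀ b : K, g b * b ^ e =
      ∑ i, ∑ j ∈ range 5, (d i ^ (2 ^ j) * g (bs i)) * b ^ (2 ^ j + e) := by
    intro b
    rw [hexp b, sum_mul]
    apply sum_congr rfl
    intro i _
    rw [sum_mul, sum_mul]
    apply sum_congr rfl
    intro j _
    rw [mul_pow, pow_add]
    ring
  rw [sum_congr rfl (fun b _ => h1 b), sum_comm]
  apply sum_eq_zero
  intro i _
  rw [sum_comm]
  apply sum_eq_zero
  intro j hj
  rw [← mul_sum, sum_pow hK _ (he j (mem_range.1 hj)), mul_zero]

/-- For the cube map on a field with 32 elements, every additive `L` and every `a ≠ 0` there are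
`b ≠ 0` and `x` with `(x + b)³ + x³ + L b = a`. -/
theorem main (hK : Fintype.card K = 32) [CharP K 2] (L : K →+ K) (a : K) (ha : a ≠ 0) :
    ∃ b : K, b ≠ 0 ∧ ∃ x : K, (x + b) ^ 3 + x ^ 3 + L b = a := by
  classical
  by_contra hcon
  push Not at hcon
  have h2 : (2 : K) = 0 := CharTwo.two_eq_zero
  have hp32 : ∀ y : K, y ^ 32 = y := by
    intro y
    have := FiniteField.pow_card y
    rwa [hK] at this
  -- the trace function
  let T : K → K := fun y => y + y ^ 2 + y ^ 4 + y ^ 8 + y ^ 16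
  have hT01 : ∀ y, T y = 0 ∨ T y = 1 := by
    intro y
    have h3 : T y * (T y - 1) = 0 := by
      have h4 : T y ^ 2 = T y := by
        have h5 : T y ^ 2 = y ^ 2 + y ^ 4 + y ^ 8 + y ^ 16 + y ^ 32 := by
          simp only [T]
          rw [CharTwo.add_sq, CharTwo.add_sq, CharTwo.add_sq, CharTwo.add_sq]
          ring
        rw [h5, hp32]
        simp only [T]
        ring
      linear_combination h4
    rcases mul_eq_zero.1 h3 with h4 | h4
    · exact Or.inl h4
    · exact Or.inr (sub_eq_zero.1 h4)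
  have hzero : ∀ b : K, b ≠ 0 → T ((a + L b) * (b ^ 3)⁻¹) = 0 := by
    intro b hb
    rcases hT01 ((a + L b) * (b ^ 3)⁻¹) with h3 | h3
    · exact h3
    · exfalso
      -- `w = u + 1` has trace zero
      obtain ⟨u, hu⟩ : ∃ u, u = (a + L b) * (b ^ 3)⁻¹ := ⟨_, rfl⟩
      rw [← hu] at h3
      have hb3 : b ^ 3 ≠ 0 := pow_ne_zero 3 hb
      have hub : u * b ^ 3 = a + L b := by
        rw [hu, mul_assoc, inv_mul_cancel₀ hb3, mul_one]
      -- half trace of `w = u + 1`
      have e2 : (u + 1) ^ 2 = u ^ 2 + 1 := by rw [CharTwo.add_sq]; ring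
      have e4 : (u + 1) ^ 4 = u ^ 4 + 1 := by
        calc (u + 1) ^ 4 = ((u + 1) ^ 2) ^ 2 := by rw [← pow_mul]
          _ = u ^ 4 + 1 := by rw [e2, CharTwo.add_sq]; ring
      have e8 : (u + 1) ^ 8 = u ^ 8 + 1 := by
        calc (u + 1) ^ 8 = ((u + 1) ^ 4) ^ 2 := by rw [← pow_mul]
          _ = u ^ 8 + 1 := by rw [e4, CharTwo.add_sq]; ring
      have e16 : (u + 1) ^ 16 = u ^ 16 + 1 := by
        calc (u + 1) ^ 16 = ((u + 1) ^ 8) ^ 2 := by rw [← pow_mul]
          _ = u ^ 16 + 1 := by rw [e8, CharTwo.add_sq]; ring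
      have hTw : T (u + 1) = 0 := by
        have h5 : T (u + 1) = T u + 1 := by
          simp only [T]
          rw [e2, e4, e8, e16]
          linear_combination 2 * h2
        rw [h5, h3]
        linear_combination h2
      obtain ⟨t, ht⟩ : ∃ t : K, t ^ 2 + t = u + 1 := by
        obtain ⟨w, hw⟩ : ∃ w, w = u + 1 := ⟨_, rfl⟩
        rw [← hw] at hTw ⊢
        refine ⟨w + w ^ 4 + w ^ 16, ?_⟩
        rw [CharTwo.add_sq, CharTwo.add_sq, ← pow_mul, ← pow_mul]
        norm_num
        rw [hp32]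
        simp only [T] at hTw
        linear_combination hTw
      apply hcon b hb (b * t)
      have h8 : (b * t + b) ^ 3 + (b * t) ^ 3 = b ^ 3 * (t ^ 2 + t) + b ^ 3 := by
        linear_combination (b ^ 3 * t ^ 3 + b ^ 3 * t ^ 2 + b ^ 3 * t) * h2
      rw [h8, ht]
      have h9 : b ^ 3 * (u + 1) + b ^ 3 = a + L b := by
        rw [← hub]
        linear_combination (b ^ 3) * h2
      rw [h9]
      linear_combination (L b) * h2
  -- the sum
  have hterm : ∀ b : K, (a + L b) + (a ^ 2 + (L b) ^ 2) * b ^ 28 + (a ^ 4 + (L b) ^ 4) * b ^ 22 +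
      (a ^ 8 + (L b) ^ 8) * b ^ 10 + (a ^ 16 + (L b) ^ 16) * b ^ 17 = if b = 0 then a else 0 := by
    intro b
    by_cases hb : b = 0
    · subst hb
      rw [if_pos rfl, map_zero]
      ring
    · rw [if_neg hb]
      have h3 := hzero b hb
      obtain ⟨u, hu⟩ : ∃ u, u = a + L b := ⟨_, rfl⟩
      have e2 : a ^ 2 + (L b) ^ 2 = u ^ 2 := by rw [hu, CharTwo.add_sq]
      have e4 : a ^ 4 + (L b) ^ 4 = u ^ 4 := by
        calc a ^ 4 + (L b) ^ 4 = (a ^ 2) ^ 2 + ((L b) ^ 2) ^ 2 := by ring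
          _ = (a ^ 2 + (L b) ^ 2) ^ 2 := (CharTwo.add_sq _ _).symm
          _ = u ^ 4 := by rw [e2]; ring
      have e8 : a ^ 8 + (L b) ^ 8 = u ^ 8 := by
        calc a ^ 8 + (L b) ^ 8 = (a ^ 4) ^ 2 + ((L b) ^ 4) ^ 2 := by ring
          _ = (a ^ 4 + (L b) ^ 4) ^ 2 := (CharTwo.add_sq _ _).symm
          _ = u ^ 8 := by rw [e4]; ring
      have e16 : a ^ 16 + (L b) ^ 16 = u ^ 16 := by
        calc a ^ 16 + (L b) ^ 16 = (a ^ 8) ^ 2 + ((L b) ^ 8) ^ 2 := by ring
          _ = (a ^ 8 + (L b) ^ 8) ^ 2 := (CharTwo.add_sq _ _).symm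
          _ = u ^ 16 := by rw [e8]; ring
      rw [e2, e4, e8, e16, ← hu]
      rw [← hu] at h3
      simp only [T] at h3
      have hb31 : b ^ 31 = 1 := by
        have h4 : b * b ^ 31 = b * 1 := by
          rw [mul_one]
          calc b * b ^ 31 = b ^ 32 := by ring
            _ = b := hp32 b
        exact mul_left_cancel₀ hb h4
      have hinv : (b ^ 3)⁻¹ = b ^ 28 := by
        apply inv_eq_of_mul_eq_one_right
        calc b ^ 3 * b ^ 28 = b ^ 31 := by ring
          _ = 1 := hb31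
      rw [hinv] at h3
      have h5 : b ^ 3 * (u * b ^ 28 + (u * b ^ 28) ^ 2 + (u * b ^ 28) ^ 4 + (u * b ^ 28) ^ 8 +
          (u * b ^ 28) ^ 16) = 0 := by rw [h3, mul_zero]
      have h6 : b ^ 3 * (u * b ^ 28 + (u * b ^ 28) ^ 2 + (u * b ^ 28) ^ 4 + (u * b ^ 28) ^ 8 +
          (u * b ^ 28) ^ 16) = u * (b ^ 31) + u ^ 2 * b ^ 28 * (b ^ 31) +
          u ^ 4 * b ^ 22 * (b ^ 31) ^ 3 + u ^ 8 * b ^ 10 * (b ^ 31) ^ 7 +
          u ^ 16 * b ^ 17 * (b ^ 31) ^ 14 := by ring
      rw [h6, hb31] at h5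
      simpa using h5
  have hsum : ∑ b : K, ((a + L b) + (a ^ 2 + (L b) ^ 2) * b ^ 28 + (a ^ 4 + (L b) ^ 4) * b ^ 22 +
      (a ^ 8 + (L b) ^ 8) * b ^ 10 + (a ^ 16 + (L b) ^ 16) * b ^ 17) = a := by
    rw [sum_congr rfl (fun b _ => hterm b), sum_ite_eq']
    simp
  -- additive maps `b ↦ (L b) ^ (2 ^ j)`
  have hfrob : ∀ j : ℕ, ∃ g : K →+ K, ∀ b, g b = (L b) ^ (2 ^ j) := by
    intro j
    have : Fact (Nat.Prime 2) := ⟨Nat.prime_two⟩
    refine ⟨((iterateFrobenius K 2 j).toAddMonoidHom).comp L, fun b => ?_⟩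
    show iterateFrobenius K 2 j (L b) = _
    rw [iterateFrobenius_def]
  have hpart : ∀ j e : ℕ, ¬ 31 ∣ e → (∀ i < 5, ¬ 31 ∣ 2 ^ i + e) →
      ∑ b : K, (a ^ (2 ^ j) + (L b) ^ (2 ^ j)) * b ^ e = 0 := by
    intro j e he1 he2
    obtain ⟨g, hg⟩ := hfrob j
    have h3 := sum_additive hK g e he2
    simp only [add_mul, sum_add_distrib, ← mul_sum, sum_pow hK e he1, mul_zero, zero_add]
    rw [← h3]
    apply sum_congr rfl
    intro b _
    rw [hg]
  have h28 := hpart 1 28 (by norm_num) (by decide)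
  have h22 := hpart 2 22 (by norm_num) (by decide)
  have h10 := hpart 3 10 (by norm_num) (by decide)
  have h17 := hpart 4 17 (by norm_num) (by decide)
  have h0 : ∑ b : K, (a + L b) = 0 := by
    rw [sum_add_distrib, sum_const, card_univ, hK, ← map_sum]
    have h3 : ∑ b : K, b = 0 := by
      have := sum_pow hK 1 (by norm_num)
      simpa using this
    rw [h3, map_zero, add_zero, nsmul_eq_mul]
    have : ((32 : ℕ) : K) = 0 := by
      calc ((32 : ℕ) : K) = 2 * 16 := by norm_num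
        _ = 0 := by rw [h2, zero_mul]
    rw [this, zero_mul]
  norm_num at h28 h22 h10 h17
  apply ha
  rw [← hsum]
  rw [sum_add_distrib, sum_add_distrib, sum_add_distrib, sum_add_distrib, h0, h28, h22, h10, h17]
  simp

end Pool.Agent.Q246.Cube32
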